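import Pool.Agent.H.MP_2655df_gt.I

set_option autoImplicit false

namespace Pool.Agent.H.MP_df1f63_gt

open Filter Topology Set Pool.Agent.H.MP_2655df_gt

variable {C : Set V}

def TE (C : Set V) : Prop :=
  ∀ O ∈ C, ∀ u v : V, det3 O u v ≠ 0 → ∃ α₁ β₁ α₂ β₂ α₃ β₃ : V, Ext C O u α₁ ∧ Ext C O (-u) β₁ ∧
    Ext C O v α₂ ∧ Ext C O (-v) β₂ ∧ Ext C O (v - u) α₃ ∧ Ext C O (-(v - u)) β₃ ∧
      dot (α₁ - β₁) v * dot (α₂ - β₂) (v - u) * dot (α₃ - β₃) u =
        dot (α₂ - β₂) u * dot (α₁ - β₁) (v - u) * dot (α₃ - β₃) v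

def Sm (C : Set V) (O w : V) : Prop :=
  ∀ α β α' β' : V, Ext C O w α → Ext C O (-w) β → Ext C O w α' → Ext C O (-w) β' →
    ∀ z, dot (α - β) z = dot (α' - β') z

lemma Sm.neg {O w : V} (h : Sm C O w) : Sm C O (-w) := by
  intro α β α' β' h1 h2 h3 h4 z
  rw [neg_neg] at h2 h4
  have := h β α β' α' h2 h1 h4 h3 z
  simp only [sub_dot] at this ⊢; linarith

lemma Sm.psmul (hC : Cone C) {O w : V} (hO : O ∈ C) (h : Sm C O w) {s : ℝ} (hs : 0 < s) :
    Sm C O (s • w) := by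
  have k : ∀ {v γ : V}, Ext C O (s • v) γ → Ext C O v γ := by
    intro v γ h
    have := hC.ext_smul hO h (inv_pos.2 hs)
    rwa [smul_smul, inv_mul_cancel₀ hs.ne', one_smul] at this
  intro α β α' β' h1 h2 h3 h4
  rw [← smul_neg] at h2 h4
  exact h _ _ _ _ (k h1) (k h2) (k h3) (k h4)

lemma Sm.smul (hC : Cone C) {O w : V} (hO : O ∈ C) (h : Sm C O w) {s : ℝ} (hs : s ≠ 0) :
    Sm C O (s • w) := by
  rcases lt_or_gt_of_ne hs with h1 | h1
  · have := h.neg.psmul hC hO (neg_pos.2 h1)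
    convert this using 1; module
  · exact h.psmul hC hO h1

lemma tp_of_sm (hC : Cone C) (hK : TE C) {O u v : V} (hO : O ∈ C) (hdet : det3 O u v ≠ 0)
    (su : Sm C O u) (sv : Sm C O v) {α₁ β₁ α₂ β₂ : V} (x1 : Ext C O u α₁) (y1 : Ext C O (-u) β₁)
    (x2 : Ext C O v α₂) (y2 : Ext C O (-v) β₂) : TP C O u v α₁ β₁ α₂ β₂ := by
  intro σ τ hσ hτ
  obtain ⟨a1, b1, p1, q1, e1, he1, r1⟩ := hC.ext_pair hO x1 y1 hσ
  obtain ⟨a2, b2, p2, q2, e2, he2, r2⟩ := hC.ext_pair hO x2 y2 hτ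
  have hd : det3 O (σ • u) (τ • v) ≠ 0 := by
    have : det3 O (σ • u) (τ • v) = σ * τ * det3 O u v := by simp [det3]; ring
    rw [this]; exact mul_ne_zero (mul_ne_zero hσ hτ) hdet
  obtain ⟨c1, d1, c2, d2, α₃, β₃, m1, m2, m3, m4, k1, k2, k3⟩ := hK O hO _ _ hd
  have s1 := su.smul hC hO hσ _ _ _ _ m1 m2 p1 q1
  have s2 := sv.smul hC hO hτ _ _ _ _ m3 m4 p2 q2
  refine ⟨α₃, β₃, k1, k2, ?_⟩
  rw [s1, s1, s2, s2, r1, r1, r2, r2, dot_smul _ v, dot_smul _ u, dot_smul _ u,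
    dot_smul _ v] at k3
  apply mul_left_cancel₀ (mul_ne_zero (mul_ne_zero he1 he2) (mul_ne_zero hσ hτ))
  linear_combination k3

lemma dot_ext {O u v γ η : V} (hd : det3 O u v ≠ 0) (h1 : dot γ O = dot η O)
    (h2 : dot γ u = dot η u) (h3 : dot γ v = dot η v) (z : V) : dot γ z = dot η z := by
  apply mul_left_cancel₀ hd
  have e : ∀ γ : V, det3 O u v * dot γ z =
      det3 z u v * dot γ O + det3 O z v * dot γ u + det3 O u z * dot γ v := by
    intro γ; simp only [det3, dot]; ring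
  rw [e, e, h1, h2, h3]

lemma sm_of_u {O u v : V} (hd : det3 O u v ≠ 0) {x g : ℝ}
    (h : ∀ α β, Ext C O (x • u + v) α → Ext C O (-(x • u + v)) β → dot (α - β) u = g) :
    Sm C O (x • u + v) := by
  intro α β α' β' h1 h2 h3 h4
  have e1 := h _ _ h1 h2
  have e2 := h _ _ h3 h4
  have e3 := ext_G h1 h2
  have e4 := ext_G h3 h4
  rw [dot_add, dot_smul] at e3 e4
  apply dot_ext hd
  · simp [h1.1.2, h2.1.2, h3.1.2, h4.1.2]
  · rw [e1, e2]
  · rw [e1] at e3; rw [e2] at e4; linarith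

lemma sm_countable (hC : Cone C) {O u v : V} (hO : O ∈ C) (hd : det3 O u v ≠ 0) :
    {x : ℝ | ¬ Sm C O (x • u + v)}.Countable := by
  choose a ha using fun x : ℝ => (hC.M_att hO (x • u + v) : ∃ α, Ext C O (x • u + v) α)
  choose b hb using fun x : ℝ => (hC.M_att hO (-(x • u + v)) : ∃ α, Ext C O (-(x • u + v)) α)
  have key : ∀ (x x' : ℝ) (α β α' β' : V), Ext C O (x • u + v) α → Ext C O (-(x • u + v)) β →
      Ext C O (x' • u + v) α' → Ext C O (-(x' • u + v)) β' → x < x' →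
      dot (α - β) u ≤ dot (α' - β') u := by
    intro x x' α β α' β' h1 h2 h3 h4 hx
    have e1 := ext_G h1 h2
    have e2 := ext_G h3 h4
    have e3 := hC.le_G hO h1.1 h2.1 (x' • u + v)
    have e4 := hC.le_G hO h3.1 h4.1 (x • u + v)
    rw [dot_add, dot_smul] at e1 e2 e3 e4
    have : 0 ≤ (x' - x) * (dot (α' - β') u - dot (α - β) u) := by linarith
    have := (mul_nonneg_iff_of_pos_left (by linarith)).1 this
    linarith
  have mono : Monotone (fun x => dot (a x - b x) u) := by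
    intro x x' hx
    rcases hx.eq_or_lt with h | h
    · rw [h]
    · exact key _ _ _ _ _ _ (ha x) (hb x) (ha x') (hb x') h
  apply mono.countable_not_continuousAt.mono
  intro x hx hc
  apply hx
  apply sm_of_u hd (g := dot (a x - b x) u)
  intro α β h1 h2
  apply le_antisymm
  · apply ge_of_tendsto (hc.tendsto.mono_left (nhdsWithin_le_nhds (s := Ioi x)))
    filter_upwards [self_mem_nhdsWithin] with x' hx'
    exact key _ _ _ _ _ _ h1 h2 (ha x') (hb x') hx'
  · apply le_of_tendsto (hc.tendsto.mono_left (nhdsWithin_le_nhds (s := Iio x)))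
    filter_upwards [self_mem_nhdsWithin] with x' hx'
    exact key _ _ _ _ _ _ (ha x') (hb x') h1 h2 hx'

lemma ex_notMem {s : Set ℝ} (hs : s.Countable) : ∃ x, x ∉ s := by
  by_contra h
  push Not at h
  exact Cardinal.not_countable_real (hs.mono fun x _ => h x)

lemma all_sm (hC : Cone C) (hK : TE C) {O u v : V} (hO : O ∈ C) (hd : det3 O u v ≠ 0) :
    Sm C O u := by
  have hc := sm_countable hC hO hd
  obtain ⟨x₁, s1⟩ := ex_notMem hc
  have s1' : Sm C O (x₁ • u + v) := by simpa using s1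
  obtain ⟨α₁, p1⟩ : ∃ α, Ext C O (x₁ • u + v) α := hC.M_att hO _
  obtain ⟨β₁, q1⟩ : ∃ α, Ext C O (-(x₁ • u + v)) α := hC.M_att hO _
  have dx : ∀ x : ℝ, det3 O (x • u + v) u ≠ 0 := fun x h => hd (by simp [det3] at h ⊢; linarith)
  have g1 := hC.G_pos hO (dx x₁)
  have j1 := ext_G p1 q1
  have hc2 : {x : ℝ | dot (α₁ - β₁) (x • u + v) = 0}.Countable := by
    apply Set.Subsingleton.countable
    intro x hx y hy
    simp only [mem_ofPred_eq, dot_add, dot_smul] at hx hy j1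
    by_contra hne
    have h1 : (x - y) * dot (α₁ - β₁) u = 0 := by linarith
    have h2 : dot (α₁ - β₁) u = 0 := by
      rcases mul_eq_zero.1 h1 with h | h
      · exact absurd (sub_eq_zero.1 h) hne
      · exact h
    rw [h2] at hx j1; linarith
  obtain ⟨x₂, s2⟩ := ex_notMem ((hc.union hc2).union (Set.countable_singleton x₁))
  simp only [mem_union, mem_ofPred_eq, mem_singleton_iff, not_or, not_not] at s2
  obtain ⟨⟨s2, s3⟩, s4⟩ := s2
  set κ := dot (α₁ - β₁) (x₂ • u + v) / G C O (x₁ • u + v) with hκ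
  have κ0 : κ ≠ 0 := div_ne_zero s3 g1.ne'
  obtain ⟨a1, b1, m1, m2, e, he, r⟩ := hC.ext_pair hO p1 q1 κ0
  obtain ⟨α₂, p2⟩ : ∃ α, Ext C O (x₂ • u + v) α := hC.M_att hO _
  obtain ⟨β₂, q2⟩ : ∃ α, Ext C O (-(x₂ • u + v)) α := hC.M_att hO _
  have d1 : det3 O (κ • (x₁ • u + v)) (x₂ • u + v) ≠ 0 := by
    have : det3 O (κ • (x₁ • u + v)) (x₂ • u + v) = κ * (x₁ - x₂) * det3 O u v := by
      simp [det3]; ring
    rw [this]; exact mul_ne_zero (mul_ne_zero κ0 (sub_ne_zero.2 (Ne.symm s4))) hd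
  have tp := tp_of_sm hC hK hO d1 (s1'.smul hC hO κ0) s2 m1 m2 p2 q2
  set U := κ • (x₁ • u + v) with hU
  set W := x₂ • u + v - U with hW
  have eW : x₂ • u + v = U + W := by rw [hW]; module
  have d2 : det3 O U W ≠ 0 := by
    intro h; apply d1; rw [eW]; simp [det3] at h ⊢; linarith
  have h0 : dot (a1 - b1) W = 0 := by
    rw [r, hW, hU, dot_sub, dot_smul, j1, hκ, div_mul_cancel₀ _ g1.ne']; ring
  rw [eW] at p2 q2 tp
  obtain ⟨l₁, l₂, hl⟩ := hC.quad0 hO d2 m1 m2 h0 p2 q2 tp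
  have sx : ∀ x : ℝ, Sm C O (x • U + W) := by
    intro x
    have gx : 0 < G C O (x • U + W) := hC.G_pos hO (v := U) (by
      intro h; apply d2; simp [det3] at h ⊢; linarith)
    apply sm_of_u d2 (g := l₁ * x / G C O (x • U + W))
    intro α β h1 h2
    have e1 := ext_G h1 h2
    rw [dot_add, dot_smul] at e1
    have key : ∀ h : ℝ, 2 * h * (G C O (x • U + W) * dot (α - β) U - l₁ * x) ≤
        (l₁ - dot (α - β) U ^ 2) * h ^ 2 := by
      intro h
      have e2 := hC.abs_le_G hO h1.1 h2.1 ((x + h) • U + W)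
      have e3 := sq_le_sq' (abs_le.1 e2).1 (abs_le.1 e2).2
      rw [hl, dot_add, dot_smul] at e3
      have e4 := hl x
      have e5 : (x + h) * dot (α - β) U + dot (α - β) W =
          G C O (x • U + W) + h * dot (α - β) U := by linarith
      rw [e5] at e3
      nlinarith
    rw [eq_div_iff gx.ne']
    generalize G C O (x • U + W) = g at key ⊢
    generalize dot (α - β) U = j at key ⊢
    generalize l₁ - j ^ 2 = K at key
    have : g * j - l₁ * x = 0 := by
      generalize g * j - l₁ * x = D at key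
      by_contra hD
      have hK : 0 < |K| + 1 := by positivity
      have h1 := key (D / (|K| + 1))
      have h2 : 0 < D ^ 2 := by positivity
      have h3 : K * (D / (|K| + 1)) ^ 2 ≤ (|K| + 1) * (D / (|K| + 1)) ^ 2 := by
        apply mul_le_mul_of_nonneg_right _ (sq_nonneg _)
        linarith [le_abs_self K]
      have h4 : (|K| + 1) * (D / (|K| + 1)) ^ 2 = D ^ 2 / (|K| + 1) := by field_simp
      have h5 : 2 * (D / (|K| + 1)) * D = 2 * (D ^ 2 / (|K| + 1)) := by field_simp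
      have h6 : 0 < D ^ 2 / (|K| + 1) := by positivity
      linarith
    linarith
  have := (sx (1 - κ⁻¹)).smul hC hO (inv_ne_zero (sub_ne_zero.2 s4))
  convert this using 1
  have e1 : (1 - κ⁻¹) • U + W = (x₂ - x₁) • u := by
    rw [hW, hU, sub_smul, smul_smul κ⁻¹, inv_mul_cancel₀ κ0]; module
  rw [e1, smul_smul, inv_mul_cancel₀ (sub_ne_zero.2 s4), one_smul]

theorem tt_of_te (hC : Cone C) (hK : TE C) : TT C := by
  intro O hO u v hd α₁ β₁ α₂ β₂ x1 y1 x2 y2
  refine tp_of_sm hC hK hO hd (all_sm hC hK hO hd) (all_sm hC hK hO (v := u) ?_) x1 y1 x2 y2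
  intro h; apply hd; unfold det3 at h ⊢; linarith

end Pool.Agent.H.MP_df1f63_gt
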