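import Pool.Agent.H.MP_df1f63_gt.A

set_option autoImplicit false

namespace Pool.Agent.H.MP_df1f63_gt

open Filter Topology Set Pool.Agent.H.MP_2655df_gt

variable {C : Set V}

def Xt (C : Set V) (b w α : V) : Prop := Adm C α ∧ dot α w = M C b w * dot α b

def Alt (C : Set V) (a b c h : V) : Prop :=
  ∃ (α β : V) (μ : ℝ), Xt C b (c - b) α ∧ Xt C b (-(c - b)) β ∧ 0 < μ ∧ h = α - μ • β ∧ dot h a = 0

def ConcE (C : Set V) : Prop :=
  ∀ a ∈ C, ∀ b ∈ C, ∀ c ∈ C, det3 a b c ≠ 0 → ∃ h1 h2 h3 z : V, Alt C a b c h1 ∧ Alt C b c a h2 ∧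
    Alt C c a b h3 ∧ z ≠ 0 ∧ dot h1 z = 0 ∧ dot h2 z = 0 ∧ dot h3 z = 0

def Nm (C : Set V) (O a b w z α β : V) (μ : ℝ) : Prop :=
  ND C O α ∧ ND C O β ∧ dot α w = M C b w * dot α b ∧ dot β (-w) = M C b (-w) * dot β b ∧ 0 < μ ∧
    dot (α - μ • β) a = 0 ∧ dot (α - μ • β) z = 0

lemma Alt.norm (hC : Cone C) {O a b c h z w : V} (hO : O ∈ C) (hb : b ∈ C) (hA : Alt C a b c h)
    (hz : dot h z = 0) {ε : ℝ} (hε : 0 < ε) (hw : c - b = ε • w) :
    ∃ α β μ, Nm C O a b w z α β μ := by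
  obtain ⟨α, β, μ, ⟨a1, a2⟩, ⟨b1, b2⟩, μ0, rfl, h1⟩ := hA
  rw [hw, hC.M_smul hb _ hε, dot_smul] at a2
  rw [hw, ← smul_neg, hC.M_smul hb _ hε, dot_smul] at b2
  have a3 : dot α w = M C b w * dot α b := by
    apply mul_left_cancel₀ hε.ne'; linarith
  have b3 : dot β (-w) = M C b (-w) * dot β b := by
    apply mul_left_cancel₀ hε.ne'; linarith
  have p := a1 O hO
  have q := b1 O hO
  have key : ∀ y, dot (α - μ • β) y = 0 →
      dot ((dot α O)⁻¹ • α - (μ * dot β O / dot α O) • (dot β O)⁻¹ • β) y = 0 := by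
    intro y hy
    simp only [sub_dot, smul_dot] at hy ⊢
    field_simp
    linarith
  refine ⟨(dot α O)⁻¹ • α, (dot β O)⁻¹ • β, μ * dot β O / dot α O, ⟨fun z hz => ?_, ?_⟩,
    ⟨fun z hz => ?_, ?_⟩, ?_, ?_, by positivity, key _ h1, key _ hz⟩
  · rw [smul_dot]; exact mul_pos (inv_pos.2 p) (a1 z hz)
  · rw [smul_dot]; exact inv_mul_cancel₀ p.ne'
  · rw [smul_dot]; exact mul_pos (inv_pos.2 q) (b1 z hz)
  · rw [smul_dot]; exact inv_mul_cancel₀ q.ne'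
  · rw [smul_dot, smul_dot, a3]; ring
  · rw [smul_dot, smul_dot, b3]; ring

lemma eps_seq {δ : ℝ} (hδ0 : 0 < δ) : ∃ ε : ℕ → ℝ, (∀ n, 0 < ε n) ∧ (∀ n, |ε n| < δ) ∧
    Tendsto ε atTop (𝓝 0) := by
  refine ⟨fun n => δ / 2 * (1 / ((n : ℝ) + 1)), fun n => by positivity, fun n => ?_, ?_⟩
  · rw [abs_of_pos (by positivity)]
    have : 1 / ((n : ℝ) + 1) ≤ 1 := by
      rw [div_le_one (by positivity)]; linarith [Nat.cast_nonneg (α := ℝ) n]
    have : δ / 2 * (1 / ((n : ℝ) + 1)) ≤ δ / 2 * 1 := by gcongr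
    linarith
  · have := (tendsto_one_div_add_atTop_nhds_zero_nat (𝕜 := ℝ)).const_mul (δ / 2)
    rw [mul_zero] at this
    exact this

theorem te_of (hC : Cone C) (hK : ConcE C) : TE C := by
  intro O hO u v hdet
  obtain ⟨δ1, hδ1, k1⟩ := hC.small hO u
  obtain ⟨δ2, hδ2, k2⟩ := hC.small hO v
  obtain ⟨ε, hε0, hεδ, hε⟩ := eps_seq (lt_min hδ1 hδ2)
  have hb : ∀ n, O + ε n • u ∈ C := fun n => k1 _ (lt_of_lt_of_le (hεδ n) (min_le_left _ _))
  have hc : ∀ n, O + ε n • v ∈ C := fun n => k2 _ (lt_of_lt_of_le (hεδ n) (min_le_right _ _))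
  have h0 : ∀ n, O + ε n • (0 : V) ∈ C := fun n => by simpa using hO
  have ex : ∀ n, ∃ (z a1 b1 a2 b2 a3 b3 : V) (m1 m2 m3 : ℝ), z ≠ 0 ∧
      Nm C O O (O + ε n • u) (v - u) z a1 b1 m1 ∧ Nm C O (O + ε n • u) (O + ε n • v) (-v) z a2 b2 m2 ∧
      Nm C O (O + ε n • v) (O + ε n • (0 : V)) u z a3 b3 m3 := by
    intro n
    have hd : det3 O (O + ε n • u) (O + ε n • v) ≠ 0 := by
      have : det3 O (O + ε n • u) (O + ε n • v) = ε n ^ 2 * det3 O u v := by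
        simp [det3]; ring
      rw [this]; exact mul_ne_zero (pow_ne_zero 2 (hε0 n).ne') hdet
    obtain ⟨h1, h2, h3, z, A1, A2, A3, z0, z1, z2, z3⟩ := hK O hO _ (hb n) _ (hc n) hd
    obtain ⟨a1, b1, m1, n1⟩ := A1.norm hC hO (hb n) z1 (hε0 n) (w := v - u) (by module)
    obtain ⟨a2, b2, m2, n2⟩ := A2.norm hC hO (hc n) z2 (hε0 n) (w := -v) (by module)
    obtain ⟨a3, b3, m3, n3⟩ := A3.norm hC hO hO z3 (hε0 n) (w := u) (by module)
    exact ⟨z, a1, b1, a2, b2, a3, b3, m1, m2, m3, z0, n1, n2, by simpa using n3⟩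
  choose z a1 b1 a2 b2 a3 b3 μ₁ μ₂ μ₃ z0 n1 n2 n3 using ex
  have bd := (hC.nd_bdd hO).prod (hC.nd_bdd hO)
  obtain ⟨⟨⟨A1, B1⟩, ⟨A2, B2⟩, ⟨A3, B3⟩⟩, -, φ, hφ, hl⟩ := tendsto_subseq_of_bounded
    (bd.prod (bd.prod bd)) (x := fun n => ((a1 n, b1 n), (a2 n, b2 n), (a3 n, b3 n)))
    (fun n => ⟨⟨(n1 n).1, (n1 n).2.1⟩, ⟨(n2 n).1, (n2 n).2.1⟩, ⟨(n3 n).1, (n3 n).2.1⟩⟩)
  have la1 : Tendsto (fun n => a1 (φ n)) atTop (𝓝 A1) :=
    ((continuous_fst.comp continuous_fst).tendsto _).comp hl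
  have lb1 : Tendsto (fun n => b1 (φ n)) atTop (𝓝 B1) :=
    ((continuous_snd.comp continuous_fst).tendsto _).comp hl
  have la2 : Tendsto (fun n => a2 (φ n)) atTop (𝓝 A2) :=
    ((continuous_fst.comp (continuous_fst.comp continuous_snd)).tendsto _).comp hl
  have lb2 : Tendsto (fun n => b2 (φ n)) atTop (𝓝 B2) :=
    ((continuous_snd.comp (continuous_fst.comp continuous_snd)).tendsto _).comp hl
  have la3 : Tendsto (fun n => a3 (φ n)) atTop (𝓝 A3) :=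
    ((continuous_fst.comp (continuous_snd.comp continuous_snd)).tendsto _).comp hl
  have lb3 : Tendsto (fun n => b3 (φ n)) atTop (𝓝 B3) :=
    ((continuous_snd.comp (continuous_snd.comp continuous_snd)).tendsto _).comp hl
  have lε : Tendsto (fun n => ε (φ n)) atTop (𝓝 0) := hε.comp hφ.tendsto_atTop
  refine ⟨A3, B3, B2, A2, A1, B1,
    hC.lim_ext hO lε la3 (fun n => (n3 _).1) (fun n => h0 _) (fun n => (n3 _).2.2.1),
    hC.lim_ext hO lε lb3 (fun n => (n3 _).2.1) (fun n => h0 _) (fun n => (n3 _).2.2.2.1),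
    by simpa using hC.lim_ext hO lε lb2 (fun n => (n2 _).2.1) (fun n => hc _)
        (fun n => (n2 _).2.2.2.1),
    hC.lim_ext hO lε la2 (fun n => (n2 _).1) (fun n => hc _) (fun n => (n2 _).2.2.1),
    hC.lim_ext hO lε la1 (fun n => (n1 _).1) (fun n => hb _) (fun n => (n1 _).2.2.1),
    hC.lim_ext hO lε lb1 (fun n => (n1 _).2.1) (fun n => hb _) (fun n => (n1 _).2.2.2.1), ?_⟩
  have key : ∀ n, det3
      (((1 - μ₁ n) / ε n, dot (a1 n) u - μ₁ n * dot (b1 n) u), dot (a1 n) v - μ₁ n * dot (b1 n) v)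
      (((1 - μ₂ n) / ε n, dot (a2 n) u - μ₂ n * dot (b2 n) u), dot (a2 n) v - μ₂ n * dot (b2 n) v)
      (((1 - μ₃ n) / ε n, dot (a3 n) u - μ₃ n * dot (b3 n) u), dot (a3 n) v - μ₃ n * dot (b3 n) v)
        = 0 := by
    intro n
    have := det_zero (z0 n) (n1 n).2.2.2.2.2.2 (n2 n).2.2.2.2.2.2 (n3 n).2.2.2.2.2.2 O u v
    simp only [sub_dot, smul_dot, (n1 n).1.2, (n1 n).2.1.2, (n2 n).1.2, (n2 n).2.1.2, (n3 n).1.2,
      (n3 n).2.1.2] at this
    have e0 := (hε0 n).ne'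
    simp only [det3] at this ⊢
    field_simp
    linear_combination this
  have pos : ∀ {γ w : V} {e : ℝ}, ND C O γ → O + e • w ∈ C → 0 < 1 + e * dot γ w := by
    intro γ w e h1 h2
    have := h1.1 _ h2
    simpa [h1.2] using this
  have gen : ∀ {a b : ℕ → V} {A B w : V} {μ : ℕ → ℝ}, Tendsto (fun n => a (φ n)) atTop (𝓝 A) →
      Tendsto (fun n => b (φ n)) atTop (𝓝 B) → (∀ n, ND C O (a n)) → (∀ n, ND C O (b n)) →
      (∀ n, 0 < μ n) → (∀ n, O + ε n • w ∈ C) →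
      (∀ n, dot (a n - μ n • b n) (O + ε n • w) = 0) →
      Tendsto (fun n => ((((1 - μ (φ n)) / ε (φ n), dot (a (φ n)) u - μ (φ n) * dot (b (φ n)) u),
        dot (a (φ n)) v - μ (φ n) * dot (b (φ n)) v) : V)) atTop
        (𝓝 (((dot B w + dot B w - dot A w - dot A w) / 2, dot A u - 1 * dot B u),
          dot A v - 1 * dot B v)) := by
    intro a b A B w μ la lb na nb μ0 hw hz
    obtain ⟨m, n⟩ := mu_lim (μ := fun n => μ (φ n)) lε (fun n => hε0 _) (tend_dot la w)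
      (tend_dot la w) (tend_dot lb w) (tend_dot lb w) (fun n => μ0 _)
      (fun n => pos (nb _) (hw _)) (fun n => pos (nb _) (hw _)) (fun n => by
        have := hz (φ n)
        simp only [sub_dot, smul_dot, dot_add, dot_smul, (na _).2, (nb _).2] at this
        have e : 1 + ε (φ n) * dot (a (φ n)) w = μ (φ n) * (1 + ε (φ n) * dot (b (φ n)) w) := by
          linarith
        rw [e]; ring)
    exact (n.prodMk_nhds ((tend_dot la u).sub (m.mul (tend_dot lb u)))).prodMk_nhds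
      ((tend_dot la v).sub (m.mul (tend_dot lb v)))
  have l1 := gen la1 lb1 (fun n => (n1 n).1) (fun n => (n1 n).2.1) (fun n => (n1 n).2.2.2.2.1) h0
    (fun n => by simpa using (n1 n).2.2.2.2.2.1)
  have l2 := gen la2 lb2 (fun n => (n2 n).1) (fun n => (n2 n).2.1) (fun n => (n2 n).2.2.2.2.1) hb
    (fun n => (n2 n).2.2.2.2.2.1)
  have l3 := gen la3 lb3 (fun n => (n3 n).1) (fun n => (n3 n).2.1) (fun n => (n3 n).2.2.2.2.1) hc
    (fun n => (n3 n).2.2.2.2.2.1)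
  have hcont : Continuous (fun p : V × V × V => det3 p.1 p.2.1 p.2.2) := by
    unfold det3; fun_prop
  have l4 := (hcont.tendsto _).comp (l1.prodMk_nhds (l2.prodMk_nhds l3))
  have l6 := tendsto_nhds_unique (l4.congr (f₂ := fun _ => (0 : ℝ)) (fun n => key (φ n)))
    tendsto_const_nhds
  simp only [det3, dot_zero] at l6
  simp only [sub_dot, dot_sub]
  linear_combination l6

end Pool.Agent.H.MP_df1f63_gt
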