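import Pool.Agent.H.MP_df1f63_gt.B

set_option autoImplicit false

namespace Pool.Agent.H.MP_df1f63_gt

open Filter Topology Set Pool.Agent.H.MP_2655df_gt

variable {C : Set V}

lemma M_add_base (hC : Cone C) {O : V} (hO : O ∈ C) (v : V) (r : ℝ) :
    M C O (v + r • O) = M C O v + r := by
  apply hC.M_eq hO
  intro t
  have : t • O - (v + r • O) = (t - r) • O - v := by module
  rw [this, hC.mem_iff hO]
  constructor <;> intro h <;> linarith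

lemma Xt.aff (hC : Cone C) {b w α : V} (hb : b ∈ C) (h : Xt C b w α) {q r : ℝ} (s : ℝ) (hq : 0 < q)
    (hr : 0 < r) : Xt C (q • b) (r • w + s • b) α := by
  refine ⟨h.1, ?_⟩
  rw [hC.M_base hb _ hq, M_add_base hC hb, hC.M_smul hb _ hr, dot_add, dot_smul, dot_smul, dot_smul,
    h.2]
  field_simp

lemma Alt.scale (hC : Cone C) {a b c h : V} (hb : b ∈ C) (hA : Alt C a b c h) (p : ℝ) {q r : ℝ}
    (hq : 0 < q) (hr : 0 < r) : Alt C (p • a) (q • b) (r • c) h := by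
  obtain ⟨α, β, μ, h1, h2, h3, h4, h5⟩ := hA
  refine ⟨α, β, μ, ?_, ?_, h3, h4, by rw [dot_smul, h5, mul_zero]⟩
  · have := h1.aff hC hb (r - q) hq hr
    convert this using 1; module
  · have := h2.aff hC hb (q - r) hq hr
    convert this using 1; module

lemma M_pos (hC : Cone C) {X Y : V} (hX : X ∈ C) (hY : Y ∈ C) : 0 < M C X Y := by
  obtain ⟨α, h1, h2⟩ := hC.M_att hX Y
  rw [← h2]; exact h1.1 Y hY

lemma half (hC : Cone C) {O w v : V} (hO : O ∈ C) {δ η : ℝ} (hδ : 0 < δ) (hη : 0 < η)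
    (hX : O + δ • w ∈ C)
    (h : ∀ ε : ℝ, |ε| < η → O + ε • v ∈ C ∧ M C (O + δ • w) O * M C O (O + δ • w) ≤
      M C (O + δ • w) (O + ε • v) * M C (O + ε • v) (O + δ • w)) :
    ∃ α β, Ext C O w α ∧ Ext C O (-w) β ∧ dot α v ≤ dot β v := by
  obtain ⟨ε, hε0, hεδ, hε⟩ := eps_seq hη
  have hZ := fun n => (h _ (hεδ n)).1
  choose α hα1 hα2 using fun n => hC.ex_at hO (hZ n) (O + δ • w)
  choose β hβ1 hβ2 using fun n => hC.ex_at hO hX (O + ε n • v)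
  obtain ⟨⟨α₀, β₀⟩, -, φ, hφ, hl⟩ := tendsto_subseq_of_bounded
    ((hC.nd_bdd hO).prod (hC.nd_bdd hO)) (x := fun n => (α n, β n)) (fun n => ⟨hα1 n, hβ1 n⟩)
  have lα : Tendsto (fun n => α (φ n)) atTop (𝓝 α₀) := (continuous_fst.tendsto _).comp hl
  have lβ : Tendsto (fun n => β (φ n)) atTop (𝓝 β₀) := (continuous_snd.tendsto _).comp hl
  have lε : Tendsto (fun n => ε (φ n)) atTop (𝓝 0) := hε.comp hφ.tendsto_atTop
  have e1 := hC.lim_ext hO lε lα (fun n => hα1 _) (fun n => hZ _) (fun n => hα2 _)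
  have nb : ND C O β₀ := by
    have e1 : dot β₀ O = 1 := by
      have := tend_dot lβ O
      simp only [fun n => (hβ1 n).2] at this
      exact (tendsto_nhds_unique tendsto_const_nhds this).symm
    refine ⟨hC.adm_of_nonneg (O := O) (by rw [e1]; norm_num) (fun z hz => ?_), e1⟩
    exact ge_of_tendsto' (tend_dot lβ z) (fun n => ((hβ1 _).1 z hz).le)
  refine ⟨α₀, β₀, ⟨e1.1, ?_⟩, ⟨nb, le_antisymm (hC.M_ge hO nb _) ?_⟩, ?_⟩
  · have k := e1.2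
    have e : O + δ • w = δ • w + (1 : ℝ) • O := by module
    rw [e, M_add_base hC hO, hC.M_smul hO _ hδ, dot_add, dot_smul, dot_smul, e1.1.2] at k
    apply mul_left_cancel₀ hδ.ne'; linarith
  · obtain ⟨γ, g1, g2⟩ := hC.M_att hO (-w)
    have key : ∀ n, (1 + ε n * dot γ v) * dot (β n) (O + δ • w) ≤
        (1 + ε n * dot (β n) v) * dot γ (O + δ • w) := by
      intro n
      have k1 := hC.le_M hX g1.1 (O + ε n • v)
      have k2 := hβ2 n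
      have k3 := (hβ1 n).1 _ hX
      rw [dot_add _ O (ε n • v), dot_smul, g1.2] at k1
      rw [dot_add _ O (ε n • v), dot_smul, (hβ1 n).2] at k2
      rw [k2]
      nlinarith
    have l1 := ((lε.mul_const (dot γ v)).const_add 1).mul (tend_dot lβ (O + δ • w))
    have l2 := ((lε.mul (tend_dot lβ v)).const_add 1).mul_const (dot γ (O + δ • w))
    have k := le_of_tendsto_of_tendsto' l1 l2 (fun n => key (φ n))
    simp only [dot_add, dot_smul, g1.2, nb.2, zero_mul, add_zero, one_mul] at k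
    rw [← g2, dot_neg, dot_neg]
    have : δ * dot β₀ w ≤ δ * dot γ w := by linarith
    have := le_of_mul_le_mul_left this hδ
    linarith
  · apply le_of_tendsto_of_tendsto' (tend_dot lα v) (tend_dot lβ v)
    intro m
    generalize φ m = n
    have k0 := (h _ (hεδ n)).2
    have k1 := hC.M_ge hO (hα1 n) (O + δ • w)
    have k2 := hC.le_M hX (hβ1 n).1 O
    rw [(hβ1 n).2] at k2
    have a1 := (hα1 n).1 _ hX
    have a2 := (hα1 n).1 _ (hZ n)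
    have b1 := (hβ1 n).1 _ hX
    have m1 := M_pos hC hX hO
    have m2 := M_pos hC hO hX
    have a3 := hα2 n
    have b3 := hβ2 n
    have k4 : dot (α n) (O + ε n • v) ≤ dot (β n) (O + ε n • v) := by
      generalize dot (α n) (O + ε n • v) = aZ at *
      generalize dot (β n) (O + ε n • v) = bZ at *
      generalize dot (α n) (O + δ • w) = aX at *
      generalize dot (β n) (O + δ • w) = bX at *
      generalize M C (O + δ • w) O = p at *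
      generalize M C O (O + δ • w) = q at *
      generalize M C (O + δ • w) (O + ε n • v) = r at *
      generalize M C (O + ε n • v) (O + δ • w) = s at *
      have h1 : aX ≤ p * q * bX := by nlinarith
      have h2 : p * q * bX * aZ ≤ r * s * bX * aZ := by gcongr
      have h3 : r * s * bX * aZ = bZ * aX := by rw [a3, b3]; ring
      have h4 : aX * aZ ≤ p * q * bX * aZ := by gcongr
      have h5 : aX * aZ ≤ aX * bZ := by linarith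
      exact le_of_mul_le_mul_left h5 a1
    simp only [dot_add, dot_smul, (hα1 n).2, (hβ1 n).2] at k4
    have : ε n * dot (α n) v ≤ ε n * dot (β n) v := by linarith
    exact le_of_mul_le_mul_left this (hε0 n)

lemma ext_comb {O w α α' : V} (h1 : Ext C O w α) (h2 : Ext C O w α') {θ : ℝ} (t0 : 0 ≤ θ)
    (t1 : θ ≤ 1) : Ext C O w (θ • α - (θ - 1) • α') := by
  refine ⟨⟨fun z hz => ?_, ?_⟩, ?_⟩
  · have a := h1.1.1 z hz
    have b := h2.1.1 z hz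
    simp only [sub_dot, smul_dot]
    rcases le_total (dot α z) (dot α' z) with h | h <;> nlinarith
  · simp only [sub_dot, smul_dot, h1.1.2, h2.1.2]; ring
  · simp only [sub_dot, smul_dot, h1.2, h2.2]; ring

lemma both (hC : Cone C) {O w v : V} (hO : O ∈ C) {δ η : ℝ} (hδ : 0 < δ) (hη : 0 < η)
    (hX : O + δ • w ∈ C)
    (h : ∀ ε : ℝ, |ε| < η → O + ε • v ∈ C ∧ M C (O + δ • w) O * M C O (O + δ • w) ≤
      M C (O + δ • w) (O + ε • v) * M C (O + ε • v) (O + δ • w)) :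
    ∃ α β, Ext C O w α ∧ Ext C O (-w) β ∧ dot α v = dot β v := by
  obtain ⟨a1, b1, x1, y1, k1⟩ := half hC hO hδ hη hX h
  obtain ⟨a2, b2, x2, y2, k2⟩ := half hC hO hδ hη hX (v := -v) (fun ε hε => by
    have := h (-ε) (by rwa [abs_neg])
    rwa [neg_smul, ← smul_neg] at this)
  rw [dot_neg, dot_neg] at k2
  rcases k1.eq_or_lt with k | k
  · exact ⟨a1, b1, x1, y1, k⟩
  have p : 0 < dot a2 v - dot b2 v + (dot b1 v - dot a1 v) := by linarith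
  refine ⟨_, _, ext_comb x1 x2 (θ := (dot a2 v - dot b2 v) / (dot a2 v - dot b2 v +
    (dot b1 v - dot a1 v))) (div_nonneg (by linarith) p.le) (by rw [div_le_one p]; linarith),
    ext_comb y1 y2 (θ := (dot a2 v - dot b2 v) / (dot a2 v - dot b2 v +
    (dot b1 v - dot a1 v))) (div_nonneg (by linarith) p.le) (by rw [div_le_one p]; linarith), ?_⟩
  simp only [sub_dot, smul_dot]
  field_simp
  ring

def RA (Ω : Set (ℝ × ℝ)) (a b c : ℝ × ℝ) (ℓ : AffineSubspace ℝ (ℝ × ℝ)) : Prop :=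
  Module.finrank ℝ ℓ.direction = 1 ∧ a ∈ ℓ ∧ ∃ F ∈ Ω, F ∈ ℓ ∧ F ∈ affineSpan ℝ {b, c} ∧
    ∀ x ∈ affineSpan ℝ {b, c}, x ∈ Ω → ∀ z ∈ ℓ, z ∈ Ω → dd Ω x F ≤ dd Ω x z

def Good (ℓ : AffineSubspace ℝ (ℝ × ℝ)) (h : V) : Prop :=
  (∀ z ∈ ℓ, dot h (z, 1) = 0) ∧ (∀ e ∈ ℓ.direction, dot h (e, 0) = 0) ∧ ∃ e ∈ ℓ.direction, e ≠ 0

lemma good_of {ℓ : AffineSubspace ℝ (ℝ × ℝ)} {h : V} {F e : ℝ × ℝ} (hF : F ∈ ℓ) (he : e ≠ 0)
    (hd : ℓ.direction = ℝ ∙ e) (h1 : dot h (F, 1) = 0) (h2 : dot h (e, 0) = 0) : Good ℓ h := by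
  have hdir : ∀ v ∈ ℓ.direction, dot h (v, 0) = 0 := by
    intro v hv
    rw [hd] at hv
    obtain ⟨c, rfl⟩ := Submodule.mem_span_singleton.1 hv
    have : ((c • e, 0) : V) = c • ((e, 0) : V) := by ext <;> simp
    rw [this, dot_smul, h2, mul_zero]
  refine ⟨fun z hz => ?_, hdir, e, by rw [hd]; exact Submodule.mem_span_singleton_self e, he⟩
  have h3 := hdir _ (AffineSubspace.vsub_mem_direction hz hF)
  have : ((z, 1) : V) = (F, 1) + (z -ᵥ F, 0) := by ext <;> simp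
  rw [this, dot_add, h1, h3]; simp

lemma span_iff (b c x : ℝ × ℝ) : x ∈ affineSpan ℝ {b, c} ↔ ∃ r : ℝ, x = b + r • (c - b) := by
  rw [mem_affineSpan_pair_iff_exists_lineMap_eq]
  refine exists_congr fun r => ?_
  rw [AffineMap.lineMap_apply, eq_comm]
  simp [add_comm]

lemma alt_of {Ω : Set (ℝ × ℝ)} (hC : Cone (cone Ω)) {a b c : ℝ × ℝ} (hb : b ∈ Ω)
    (hd : det3 (a, 1) (b, 1) (c, 1) ≠ 0) {ℓ : AffineSubspace ℝ (ℝ × ℝ)} (h : RA Ω a b c ℓ) :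
    ∃ h, Alt (cone Ω) (a, 1) (b, 1) (c, 1) h ∧ Good ℓ h := by
  obtain ⟨h1, ha, F, hF, hFl, hFs, hmin⟩ := h
  obtain ⟨r, hr⟩ := (span_iff _ _ _).1 hFs
  have hO := (mem_cone F).2 hF
  have hB := (mem_cone b).2 hb
  have he : a - F ≠ 0 := by
    intro h0
    apply hd
    rw [sub_eq_zero.1 h0, hr]; simp [det3]; ring
  have hmem : a - F ∈ ℓ.direction := AffineSubspace.vsub_mem_direction ha hFl
  have hdir : ℓ.direction = ℝ ∙ (a - F) := by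
    symm
    apply Submodule.eq_of_le_of_finrank_eq ((Submodule.span_singleton_le_iff_mem _ _).2 hmem)
    rw [h1, finrank_span_singleton he]
  obtain ⟨δ, hδ, k1⟩ := hC.small hO ((c - b, 0) : V)
  obtain ⟨η, hη, k2⟩ := hC.small hO ((a - F, 0) : V)
  have hX := k1 (δ / 2) (by rw [abs_of_pos (by linarith)]; linarith)
  obtain ⟨α, β, x1, y1, hv⟩ := both hC hO (half_pos hδ) hη hX (v := (a - F, 0)) (fun ε hε => by
    refine ⟨k2 ε hε, ?_⟩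
    have hZ := k2 ε hε
    have e1 : ((F, 1) : V) + (δ / 2) • ((c - b, 0) : V) = (F + (δ / 2) • (c - b), 1) := by
      ext <;> simp
    have e2 : ((F, 1) : V) + ε • ((a - F, 0) : V) = (F + ε • (a - F), 1) := by
      ext <;> simp
    rw [e1] at hX ⊢
    rw [e2] at hZ ⊢
    have k := hmin (F + (δ / 2) • (c - b)) ((span_iff _ _ _).2 ⟨r + δ / 2, by rw [hr]; module⟩)
      ((mem_cone _).1 hX) (F + ε • (a - F))
      (by rw [add_comm]; exact AffineSubspace.vadd_mem_of_mem_direction (ℓ.direction.smul_mem ε hmem) hFl)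
      ((mem_cone _).1 hZ)
    rw [dd_eq hC ((mem_cone _).1 hX) hF, dd_eq hC ((mem_cone _).1 hX) ((mem_cone _).1 hZ)] at k
    have p1 := mul_pos (M_pos hC hX hO) (M_pos hC hO hX)
    have p2 := mul_pos (M_pos hC hX hZ) (M_pos hC hZ hX)
    rw [← Real.log_le_log_iff p1 p2]; linarith)
  have ch := hC.ch hO x1.1.1 y1.1.1 (by rw [x1.2, x1.1.2, mul_one]) (by rw [y1.2, y1.1.2, mul_one])
  have ew : ((c, 1) : V) - (b, 1) = (c - b, 0) := by ext <;> simp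
  have eB : ((b, 1) : V) = (1 : ℝ) • ((F, 1) : V) + (-r) • ((c - b, 0) : V) := by
    rw [hr]; ext <;> simp
  have gw : dot β ((c - b, 0) : V) ≤ dot α ((c - b, 0) : V) := by
    rw [x1.2]; exact hC.M_ge hO y1.1 _
  have pa := x1.1.1 _ hB
  have pb := y1.1.1 _ hB
  have cmp : dot β ((c - b, 0) : V) / dot β (b, 1) ≤ dot α ((c - b, 0) : V) / dot α (b, 1) := by
    rw [div_le_div_iff₀ pb pa, eB]
    simp only [dot_add, dot_smul, x1.1.2, y1.1.2]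
    linarith
  have hFz : dot (α - (1 : ℝ) • β) (F, 1) = 0 := by simp [x1.1.2, y1.1.2]
  have hez : dot (α - (1 : ℝ) • β) (a - F, 0) = 0 := by simp [hv]
  have gd := good_of hFl he hdir hFz hez
  refine ⟨α - (1 : ℝ) • β, ⟨α, β, 1, ⟨x1.1.1, ?_⟩, ⟨y1.1.1, ?_⟩, one_pos, rfl, gd.1 a ha⟩, gd⟩
  · rw [ew, hC.M_chord ch hB ⟨_, _, eB⟩ ⟨0, 1, by simp⟩, max_eq_left cmp,
      div_mul_cancel₀ _ pa.ne']
  · rw [ew, hC.M_chord ch hB ⟨_, _, eB⟩ ⟨0, -1, by simp⟩, dot_neg, dot_neg, neg_div, neg_div,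
      max_eq_right (neg_le_neg cmp), neg_mul, div_mul_cancel₀ _ pb.ne']

lemma alt_ex {Ω : Set (ℝ × ℝ)} (hC : Cone (cone Ω)) {a b c : ℝ × ℝ} (ha : a ∈ Ω) (hb : b ∈ Ω)
    (hd : det3 (a, 1) (b, 1) (c, 1) ≠ 0) :
    ∃ ℓ h, RA Ω a b c ℓ ∧ Alt (cone Ω) (a, 1) (b, 1) (c, 1) h ∧ Good ℓ h := by
  have hA := (mem_cone a).2 ha
  have hB := (mem_cone b).2 hb
  set w : V := (c, 1) - (b, 1) with hw
  obtain ⟨α, x1⟩ : ∃ α, Ext (cone Ω) (b, 1) w α := hC.M_att hB _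
  obtain ⟨β, y1⟩ : ∃ α, Ext (cone Ω) (b, 1) (-w) α := hC.M_att hB _
  have ch := hC.ch hB x1.1.1 y1.1.1 (by rw [x1.2, x1.1.2, mul_one]) (by rw [y1.2, y1.1.2, mul_one])
  have g0 : 0 < G (cone Ω) (b, 1) w := hC.G_pos hB (v := (a, 1)) (by
    intro h; apply hd; simp [det3, hw] at h ⊢; linarith)
  rw [← ext_G x1 y1, sub_dot] at g0
  have pa := x1.1.1 _ hA
  have pb := y1.1.1 _ hA
  set μ := dot α (a, 1) / dot β (a, 1) with hμ
  have μ0 : 0 < μ := by positivity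
  have hAz : dot (α - μ • β) (a, 1) = 0 := by
    rw [sub_dot, smul_dot, hμ, div_mul_cancel₀ _ pb.ne', sub_self]
  have hFt : (dot α w - μ * dot β w) • ((b, 1) : V) + (μ - 1) • w ∈ cone Ω := by
    apply ch.2.2 <;> simp only [dot_add, dot_smul, x1.1.2, y1.1.2] <;> nlinarith
  have s0 : 0 < dot α w - μ * dot β w := by simpa [hw] using hFt.1
  set r := (μ - 1) / (dot α w - μ * dot β w) with hr
  set F : ℝ × ℝ := b + r • (c - b) with hF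
  have eF : ((F, 1) : V) = (1 : ℝ) • ((b, 1) : V) + r • w := by ext <;> simp [hF, hw]
  have hO : ((F, 1) : V) ∈ cone Ω := by
    have := hC.smul _ hFt _ (inv_pos.2 s0)
    convert this using 1
    rw [eF, smul_add, smul_smul, smul_smul, inv_mul_cancel₀ s0.ne', hr, div_eq_inv_mul]
  have hFz : dot (α - μ • β) (F, 1) = 0 := by
    rw [eF]
    simp only [dot_add, dot_smul, sub_dot, smul_dot, x1.1.2, y1.1.2, hr]
    field_simp; ring
  have he : a - F ≠ 0 := by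
    intro h0
    apply hd
    rw [sub_eq_zero.1 h0, hF]; simp [det3]; ring
  have hez : dot (α - μ • β) (a - F, 0) = 0 := by
    have : ((a - F, 0) : V) = (a, 1) - (F, 1) := by ext <;> simp
    rw [this, dot_sub, hAz, hFz, sub_zero]
  have gd := good_of (ℓ := AffineSubspace.mk' F (ℝ ∙ (a - F))) (AffineSubspace.self_mem_mk' _ _) he
    (AffineSubspace.direction_mk' _ _) hFz hez
  refine ⟨AffineSubspace.mk' F (ℝ ∙ (a - F)), α - μ • β, ⟨?_, ?_, F, (mem_cone F).1 hO,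
    AffineSubspace.self_mem_mk' _ _, (span_iff _ _ _).2 ⟨r, rfl⟩, ?_⟩,
    ⟨α, β, μ, ⟨x1.1.1, by rw [x1.2, x1.1.2, mul_one]⟩, ⟨y1.1.1, by rw [y1.2, y1.1.2, mul_one]⟩,
      μ0, rfl, hAz⟩, gd⟩
  · rw [AffineSubspace.direction_mk']; exact finrank_span_singleton he
  · rw [AffineSubspace.mem_mk']; exact Submodule.mem_span_singleton_self _
  · intro x hx hxΩ z hz hzΩ
    obtain ⟨t, ht⟩ := (span_iff _ _ _).1 hx
    have hX := (mem_cone x).2 hxΩ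
    have hZ := (mem_cone z).2 hzΩ
    have sx : ∃ s t : ℝ, ((x, 1) : V) = s • ((b, 1) : V) + t • w :=
      ⟨1, t, by rw [ht]; ext <;> simp [hw]⟩
    rw [dd_eq hC hxΩ ((mem_cone F).1 hO), dd_eq hC hxΩ hzΩ, hC.log_eq ch hX hO sx ⟨_, _, eF⟩,
      L_of_zero μ0 y1.1.1 hO hFz, ← L_of_zero μ0 y1.1.1 hZ (gd.1 z hz)]
    have := hC.log_ge x1.1.1 y1.1.1 hX hZ
    linarith

def Pen (ℓ₁ ℓ₂ ℓ₃ : AffineSubspace ℝ (ℝ × ℝ)) : Prop :=
  (∃ p, p ∈ ℓ₁ ∧ p ∈ ℓ₂ ∧ p ∈ ℓ₃) ∨ (ℓ₁.direction = ℓ₂.direction ∧ ℓ₂.direction = ℓ₃.direction)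

lemma concE {Ω : Set (ℝ × ℝ)} (hC : Cone (cone Ω))
    (H : ∀ a b c : ℝ × ℝ, a ∈ Ω → b ∈ Ω → c ∈ Ω → ¬ Collinear ℝ {a, b, c} →
      (∃ ℓ₁ ℓ₂ ℓ₃, RA Ω a b c ℓ₁ ∧ RA Ω b c a ℓ₂ ∧ RA Ω c a b ℓ₃ ∧ Pen ℓ₁ ℓ₂ ℓ₃) ∨
      (∀ ℓ₁ ℓ₂ ℓ₃, RA Ω a b c ℓ₁ → RA Ω b c a ℓ₂ → RA Ω c a b ℓ₃ → Pen ℓ₁ ℓ₂ ℓ₃)) :
    ConcE (cone Ω) := by
  intro a ha b hb c hc hdet
  have nz : ∀ v ∈ cone Ω, v = v.2 • ((v.2⁻¹ • v.1, 1) : V) := by
    intro v hv
    have := hv.1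
    ext <;> simp <;> field_simp
  have a0 := ha.1
  have b0 := hb.1
  have c0 := hc.1
  have ea := nz a ha
  have eb := nz b hb
  have ec := nz c hc
  have hx := ha.2
  have hy := hb.2
  have hw := hc.2
  generalize a.2⁻¹ • a.1 = x at ea hx
  generalize b.2⁻¹ • b.1 = y at eb hy
  generalize c.2⁻¹ • c.1 = w at ec hw
  generalize a.2 = p at ea a0
  generalize b.2 = q at eb b0
  generalize c.2 = r at ec c0
  subst ea eb ec
  have d1 : det3 (x, 1) (y, 1) (w, 1) ≠ 0 := by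
    intro h; apply hdet
    have : det3 (p • ((x, 1) : V)) (q • ((y, 1) : V)) (r • ((w, 1) : V)) =
        p * q * r * det3 (x, 1) (y, 1) (w, 1) := by simp [det3]; ring
    rw [this, h, mul_zero]
  have d2 : det3 (y, 1) (w, 1) (x, 1) ≠ 0 := by
    intro h; apply d1; simp [det3] at h ⊢; linarith
  have d3 : det3 (w, 1) (x, 1) (y, 1) ≠ 0 := by
    intro h; apply d1; simp [det3] at h ⊢; linarith
  have hncol : ¬ Collinear ℝ {x, y, w} := by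
    intro hcol
    rw [collinear_iff_of_mem (p₀ := x) (by simp)] at hcol
    obtain ⟨v, hv⟩ := hcol
    obtain ⟨r1, e1⟩ := hv y (by simp)
    obtain ⟨r2, e2⟩ := hv w (by simp)
    apply d1
    rw [e1, e2]; simp [det3]; ring
  have fin : ∀ ℓ₁ ℓ₂ ℓ₃ h1 h2 h3, Alt (cone Ω) (x, 1) (y, 1) (w, 1) h1 →
      Alt (cone Ω) (y, 1) (w, 1) (x, 1) h2 → Alt (cone Ω) (w, 1) (x, 1) (y, 1) h3 →
      Good ℓ₁ h1 → Good ℓ₂ h2 → Good ℓ₃ h3 → Pen ℓ₁ ℓ₂ ℓ₃ →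
      ∃ h1 h2 h3 z : V, Alt (cone Ω) (p • ((x, 1) : V)) (q • ((y, 1) : V)) (r • ((w, 1) : V)) h1 ∧
        Alt (cone Ω) (q • ((y, 1) : V)) (r • ((w, 1) : V)) (p • ((x, 1) : V)) h2 ∧
        Alt (cone Ω) (r • ((w, 1) : V)) (p • ((x, 1) : V)) (q • ((y, 1) : V)) h3 ∧ z ≠ 0 ∧
        dot h1 z = 0 ∧ dot h2 z = 0 ∧ dot h3 z = 0 := by
    intro ℓ₁ ℓ₂ ℓ₃ h1 h2 h3 A1 A2 A3 g1 g2 g3 hp
    have B1 := A1.scale hC ((mem_cone _).2 hy) p b0 c0
    have B2 := A2.scale hC ((mem_cone _).2 hw) q c0 a0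
    have B3 := A3.scale hC ((mem_cone _).2 hx) r a0 b0
    rcases hp with ⟨s, k1, k2, k3⟩ | ⟨k1, k2⟩
    · refine ⟨h1, h2, h3, (s, 1), B1, B2, B3, fun h => ?_, g1.1 s k1, g2.1 s k2, g3.1 s k3⟩
      simpa using congrArg Prod.snd h
    · obtain ⟨e, he, he0⟩ := g1.2.2
      refine ⟨h1, h2, h3, (e, 0), B1, B2, B3, fun h => he0 ?_, g1.2.1 e he, g2.2.1 e (k1 ▸ he),
        g3.2.1 e (k2 ▸ k1 ▸ he)⟩
      simpa using congrArg Prod.fst h
  rcases H x y w hx hy hw hncol with ⟨ℓ₁, ℓ₂, ℓ₃, r1, r2, r3, hp⟩ | hall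
  · obtain ⟨h1, A1, g1⟩ := alt_of hC hy d1 r1
    obtain ⟨h2, A2, g2⟩ := alt_of hC hw d2 r2
    obtain ⟨h3, A3, g3⟩ := alt_of hC hx d3 r3
    exact fin _ _ _ _ _ _ A1 A2 A3 g1 g2 g3 hp
  · obtain ⟨ℓ₁, h1, r1, A1, g1⟩ := alt_ex hC hx hy d1
    obtain ⟨ℓ₂, h2, r2, A2, g2⟩ := alt_ex hC hy hw d2
    obtain ⟨ℓ₃, h3, r3, A3, g3⟩ := alt_ex hC hw hx d3
    exact fin _ _ _ _ _ _ A1 A2 A3 g1 g2 g3 (hall _ _ _ r1 r2 r3)

theorem final {Ω : Set (ℝ × ℝ)} (h1 : IsOpen Ω) (h2 : Convex ℝ Ω) (h3 : Bornology.IsBounded Ω)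
    (h4 : Ω.Nonempty)
    (H : ∀ a b c : ℝ × ℝ, a ∈ Ω → b ∈ Ω → c ∈ Ω → ¬ Collinear ℝ {a, b, c} →
      (∃ ℓ₁ ℓ₂ ℓ₃, RA Ω a b c ℓ₁ ∧ RA Ω b c a ℓ₂ ∧ RA Ω c a b ℓ₃ ∧ Pen ℓ₁ ℓ₂ ℓ₃) ∨
      (∀ ℓ₁ ℓ₂ ℓ₃, RA Ω a b c ℓ₁ → RA Ω b c a ℓ₂ → RA Ω c a b ℓ₃ → Pen ℓ₁ ℓ₂ ℓ₃)) :
    ∃ f : (ℝ × ℝ) ≃ᵃ[ℝ] (ℝ × ℝ), Ω = f '' {p : ℝ × ℝ | p.1 ^ 2 + p.2 ^ 2 < 1} :=
  have hC := cone_ok h1 h2 h3
  main hC (tt_of_te hC (te_of hC (concE hC H))) h4

end Pool.Agent.H.MP_df1f63_gt
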